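import Pool.Agent.Q278.DD3

set_option autoImplicit false

/-! The `[2dk-1]`-weighted truncated series modulo `Φ_n(q)³` and `Φ_n(q)⁴`. -/

namespace Pool.Agent.Results.MP_dcacaa_nt.Full

open Finset Polynomial Q278.Cyc Q278.Loc Q278.Unit Q278.Blk

/-- `[m] = (1 - q^m) / (1 - q)` for an integer `m`, with `q = RatFunc.X`. -/
noncomputable def qint (m : ℤ) : RatFunc ℚ := (1 - RatFunc.X ^ m) / (1 - RatFunc.X)

/-- `(x; y)_k = (1 - x)(1 - x y) ⋯ (1 - x y^(k-1))`. -/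
noncomputable def qp (x y : RatFunc ℚ) (k : ℕ) : RatFunc ℚ := ∏ l ∈ range k, (1 - x * y ^ l)

/-- The sum `S_{d,n}(q) = ∑_{k<n} q^(d(d-1)k/2) [2dk-1] ((q^(-1);q^d)_k / (q^d;q^d)_k)^d`. -/
noncomputable def S (d n : ℕ) : RatFunc ℚ :=
  ∑ k ∈ range n, RatFunc.X ^ (d * (d - 1) * k / 2) * qint (2 * d * k - 1) *
    (qp RatFunc.X⁻¹ (RatFunc.X ^ d) k / qp (RatFunc.X ^ d) (RatFunc.X ^ d) k) ^ d

theorem S_eq {d n r : ℕ} (hd : d = 2 * r + 3) : (1 - q) * S d n =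
    ∑ k ∈ range n, Q278.DD.X (q ^ (-1 : ℤ)) (q ^ d) (q ^ n) r (r + 1) k := by
  unfold S
  rw [mul_sum]
  apply sum_congr rfl
  intro k _
  have h1 : (1 : RatFunc ℚ) - q ≠ 0 := by
    have := one_sub_q_ne one_pos
    rwa [pow_one] at this
  have e1 : d * (d - 1) * k / 2 = d * (r + 1) * k := by
    have : d * (d - 1) * k = 2 * (d * (r + 1) * k) := by
      rw [show d - 1 = 2 * (r + 1) by omega]; ring
    rw [this, Nat.mul_div_cancel_left _ two_pos]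
  have e2 : qp RatFunc.X⁻¹ (RatFunc.X ^ d) k / qp (RatFunc.X ^ d) (RatFunc.X ^ d) k =
      Q278.VKM.gk (q ^ (-1 : ℤ)) (q ^ d) (q ^ n) k 0 := by
    rw [Q278.DD.gk_zero]
    unfold qp
    rw [← prod_div_distrib]
    apply prod_congr rfl
    intro l _
    rw [zpow_neg_one, pow_succ' _ l]
  have e3 : (1 - q) * qint (2 * d * k - 1) = 1 - q ^ (2 * (d : ℤ) * k - 1) := by
    unfold qint
    exact mul_div_cancel₀ _ h1
  rw [e1, e2]
  unfold Q278.DD.X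
  have e4 : (1 : RatFunc ℚ) - q ^ (2 * (d : ℤ) * k - 1) = 1 - q ^ (-1 : ℤ) * (q ^ d) ^ (2 * k) := by
    rw [← pow_mul, ← zpow_natCast q (d * (2 * k)), ← zpow_add₀ q_ne]
    congr 2
    push_cast; ring
  have e5 : (RatFunc.X : RatFunc ℚ) ^ (d * (r + 1) * k) = ((q ^ d) ^ (r + 1)) ^ k := by
    rw [← pow_mul, ← pow_mul, mul_assoc]
  have e6 : (1 - q) * (RatFunc.X ^ (d * (r + 1) * k) * qint (2 * d * k - 1) *
      Q278.VKM.gk (q ^ (-1 : ℤ)) (q ^ d) (q ^ n) k 0 ^ d) =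
      ((1 - q) * qint (2 * d * k - 1)) * RatFunc.X ^ (d * (r + 1) * k) *
      Q278.VKM.gk (q ^ (-1 : ℤ)) (q ^ d) (q ^ n) k 0 ^ d := by ring
  rw [e6, e3, e4, e5]
  conv_lhs => rw [show Q278.VKM.gk (q ^ (-1 : ℤ)) (q ^ d) (q ^ n) k 0 ^ d =
    Q278.VKM.gk (q ^ (-1 : ℤ)) (q ^ d) (q ^ n) k 0 ^ (2 * r + 3) by rw [← hd]]

theorem of_mul {n j : ℕ} {η : ℂ} (hn : 1 < n) (hη : IsPrimitiveRoot η n) {x : RatFunc ℚ}
    (h : (1 - q) * x ∈ I (Reg η) (Φ n) j) : x ∈ I (Reg η) (Φ n) j := by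
  have hU : U (Reg η) ((1 : RatFunc ℚ) - q) := by
    have := U_of_ev (one_sub_mem η 1) (one_sub_ne hη (k := 1) (by
      intro h; have := Nat.le_of_dvd one_pos h; omega))
    rwa [pow_one] at this
  exact of_unit_mul hU.2.2 hU.2.1 h

/-- **Theorem.** Let `d ≥ 5` be odd and `n > 1`. If `n ≡ 1 (mod d)` then `S_{d,n}(q)` is `0`
modulo `Φ_n(q)³`. If `2n ≡ 1 (mod d)` then `S_{d,n}(q)` is `0` modulo `Φ_n(q)⁴`. That is, the
power of `Φ_n(q)` divides the numerator (in lowest terms) and is prime to the denominator. -/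
theorem result : ∀ d n : ℕ, Odd d → 5 ≤ d → 1 < n →
    (n ≡ 1 [MOD d] → cyclotomic n ℚ ^ 3 ∣ RatFunc.num (S d n) ∧
      IsCoprime (RatFunc.denom (S d n)) (cyclotomic n ℚ ^ 3)) ∧
    (2 * n ≡ 1 [MOD d] → cyclotomic n ℚ ^ 4 ∣ RatFunc.num (S d n) ∧
      IsCoprime (RatFunc.denom (S d n)) (cyclotomic n ℚ ^ 4)) := by
  intro d n hodd hd5 hn1
  obtain ⟨w, hw⟩ := hodd
  obtain ⟨r, rfl⟩ : ∃ r, w = r + 1 := ⟨w - 1, by omega⟩
  have hd : d = 2 * r + 3 := by omega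
  have hZ : 2 * ((r + 1 : ℕ) : ℤ) = (d : ℤ) - 2 - (-1) := by rw [hd]; push_cast; ring
  have hη := Complex.isPrimitiveRoot_exp n (by omega : n ≠ 0)
  constructor
  · intro h
    obtain ⟨M, hM⟩ := (Nat.modEq_iff_dvd' (show 1 ≤ n by omega)).1 h.symm
    have hM' : (n : ℤ) + (-1) = d * M := by
      have : ((n - 1 : ℕ) : ℤ) = ((d * M : ℕ) : ℤ) := by rw [hM]
      rw [Nat.cast_sub (by omega)] at this
      push_cast at this
      linarith
    have h1 := Q278.DD.fin1 (Or.inr rfl) hn1 (by omega) hd hZ (M := M) hM' hη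
    rw [← S_eq hd] at h1
    obtain ⟨h2, h3⟩ := num_dvd (by omega) hη (of_mul hn1 hη h1)
    exact ⟨h2, h3.pow_right⟩
  · intro h
    obtain ⟨M, hM⟩ := (Nat.modEq_iff_dvd' (show 1 ≤ 2 * n by omega)).1 h.symm
    have hM' : 2 * (n : ℤ) + (-1) = d * M := by
      have : ((2 * n - 1 : ℕ) : ℤ) = ((d * M : ℕ) : ℤ) := by rw [hM]
      rw [Nat.cast_sub (by omega)] at this
      push_cast at this
      linarith
    have h1 := Q278.DD.fin2 (Or.inr rfl) hn1 (by omega) hd hZ (M := M) hM' hη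
    rw [← S_eq hd] at h1
    obtain ⟨h2, h3⟩ := num_dvd (by omega) hη (of_mul hn1 hη h1)
    exact ⟨h2, h3.pow_right⟩

end Pool.Agent.Results.MP_dcacaa_nt.Full
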